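import Mathlib

/-!
# Elimination certificates for linear recurrences with row sums m^m (MP_97c21f_co)

`k22, k23, k33, k34` are the four equations left for `u, v, F` after the moments of the array have
been expressed through the row sums `1^1, …, 7^7`; the cofactors `a…`, `b…` were found by linear
algebra, Lean only checks the identities.
-/

namespace Pool.Agent.V11134.ShorCert

variable {R : Type*} [CommRing R]

/-- equation -/
def k22 (u v F : R) : R :=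
    F + 5*v + 7*u + 4*v*F + 4*u*F + 4*u*v + 4*u^2

/-- equation -/
def k23 (u v F : R) : R :=
    7*F + 39*v + 55*u - 2*F^2 + 17*v*F + 5*v^2 + 11*u*F + 20*u*v + 9*u^2 - 8*v*F^2 + 4*v^2*F -
    8*u*F^2 - 8*u*v*F + 4*u*v^2 - 12*u^2*F - 4*u^3

/-- equation -/
def k33 (u v F : R) : R :=
    55*F + 335*v + 473*u - 28*F^2 + 36*v*F - 136*v^2 - 48*u*F - 372*u*v - 320*u^2 - 108*v*F^2 -
    108*v^2*F - 108*u*F^2 - 432*u*v*F - 108*u*v^2 - 324*u^2*F - 324*u^2*v - 216*u^3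

/-- equation -/
def k34 (u v F : R) : R :=
    183*F + 1287*v + 1811*u - 263*F^2 - 791*v*F - 38*v^2 - 1798*u*F - 2247*u*v - 3301*u^2 +
    84*F^3 - 456*v*F^2 + 384*v^2*F - 148*u*F^2 - 384*u*v*F + 248*u*v^2 - 348*u^2*F - 12*u^2*v -
    8*u^3 + 324*v*F^3 + 324*v^2*F^2 + 324*u*F^3 + 1512*u*v*F^2 + 540*u*v^2*F + 1188*u^2*F^2 +
    1836*u^2*v*F + 216*u^2*v^2 + 1296*u^3*F + 648*u^3*v + 432*u^4

/-- cofactor -/
def ak22 (u v F : R) : R :=
    451584 + 136216*F + 907488*v + 95878*u + 15380*F^2 - 8481*v*F + 137925*v^2 - 506249*u*F -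
    1557834*u*v - 1827017*u^2 - 5524*F^3 + 11354*v*F^2 + 29900*v^2*F - 46*v^3 - 14342*u*F^2 -
    144150*u*v*F + 31204*u*v^2 + 182998*u^2*F + 630742*u^2*v + 935288*u^3 - 2496*F^4 +
    1248*v*F^3 - 8160*u*F^3 + 3456*u*v*F^2 - 9216*u^2*F^2 + 104736*u^2*v*F - 384*u^2*v^2 +
    30816*u^3*F + 10752*u^3*v - 57024*u^4

/-- cofactor -/
def ak23 (u v F : R) : R :=
    -235584 + 2381*F - 15335*v + 414667*u + 1606*F^2 + 46*v^2 + 66282*u*F - 11286*u*v -
    86752*u^2 - 1248*F^3 - 3456*u*F^2 - 36576*u^2*F + 384*u^2*v - 25920*u^3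

/-- cofactor -/
def ak33 (u v F : R) : R :=
    28800 - 6837*F + 4623*v - 54703*u - 576*F^2 + 3248*u*F + 24820*u^2 - 2240*u^3

/-- cofactor -/
def ak34 (u v F : R) : R :=
    -2112 + 16*F - 368*v + 2736*u - 832*u^2

theorem cert_u (u v F : R) :
    1536 * ((1 + v)^2 * u) =
    ak22 u v F * k22 u v F +
    ak23 u v F * k23 u v F +
    ak33 u v F * k33 u v F +
    ak34 u v F * k34 u v F := by
  unfold ak22 ak23 ak33 ak34 k22 k23 k33 k34
  ring

/-- cofactor -/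
def bk22 (u v F : R) : R :=
    -459936 - 129176*F - 916560*v - 96134*u - 20436*F^2 + 465*v*F - 282069*v^2 + 482937*u*F +
    1193226*u*v + 1587065*u^2 + 5460*F^3 - 32058*v*F^2 - 50700*v^2*F + 78*v^3 - 6618*u*F^2 +
    81846*u*v*F - 51876*u*v^2 - 219510*u^2*F - 672246*u^2*v - 950904*u^3 + 2496*F^4 - 1248*v*F^3
    + 8160*u*F^3 - 3456*u*v*F^2 + 9216*u^2*F^2 - 104736*u^2*v*F + 384*u^2*v^2 - 30816*u^3*F -
    10752*u^3*v + 57024*u^4

/-- cofactor -/
def bk23 (u v F : R) : R :=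
    240048 - 2109*F + 43095*v - 378843*u - 1638*F^2 - 78*v^2 - 66378*u*F + 18102*u*v + 95328*u^2
    + 1248*F^3 + 3456*u*F^2 + 36576*u^2*F - 384*u^2*v + 25920*u^3

/-- cofactor -/
def bk33 (u v F : R) : R :=
    -29376 + 6773*F - 8991*v + 49247*u + 576*F^2 - 3056*u*F - 24628*u^2 + 2240*u^3

/-- cofactor -/
def bk34 (u v F : R) : R :=
    2160 - 16*F + 624*v - 2416*u + 832*u^2

theorem cert_v (u v F : R) :
    1152 * ((1 + v)^2 * v) =
    bk22 u v F * k22 u v F +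
    bk23 u v F * k23 u v F +
    bk33 u v F * k33 u v F +
    bk34 u v F * k34 u v F := by
  unfold bk22 bk23 bk33 bk34 k22 k23 k33 k34
  ring

end Pool.Agent.V11134.ShorCert
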