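import Mathlib
import Pool.Agent.V11134.ShorCert

/-!
# Moments of an array with row sums m^m (MP_97c21f_co)

From the recurrences of the moments `M k m = sum_n n^k S(m, n + 1)` and the row sums `m^m`,
`m = 1, …, 7`, the parameters `u, v, E, F` of a linear pair are shown to vanish.
-/

namespace Pool.Agent.V11134.ShorChain

open Pool.Agent.V11134.ShorCert

theorem vanish (u v E F : ℂ) (M : ℕ → ℕ → ℂ)
    (hR0 : ∀ m : ℕ, 1 ≤ m → M 0 (m + 1) = (2 * m + 2 + u * (m - 1)) * M 0 m + (1 + v) * M 1 m)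
    (hR1 : ∀ m : ℕ, 1 ≤ m → M 1 (m + 1) = (2 * m + 2 + u * (m - 1)) * M 1 m + (1 + v) * M 2 m
      + ((m + 2 + E * m + F) * M 0 m + (1 + F) * M 1 m))
    (hR2 : ∀ m : ℕ, 1 ≤ m → M 2 (m + 1) = (2 * m + 2 + u * (m - 1)) * M 2 m + (1 + v) * M 3 m
      + ((m + 2 + E * m + F) * M 0 m + (1 + F) * M 1 m)
      + 2 * ((m + 2 + E * m + F) * M 1 m + (1 + F) * M 2 m))
    (hR3 : ∀ m : ℕ, 1 ≤ m → M 3 (m + 1) = (2 * m + 2 + u * (m - 1)) * M 3 m + (1 + v) * M 4 m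
      + ((m + 2 + E * m + F) * M 0 m + (1 + F) * M 1 m)
      + 3 * ((m + 2 + E * m + F) * M 1 m + (1 + F) * M 2 m)
      + 3 * ((m + 2 + E * m + F) * M 2 m + (1 + F) * M 3 m))
    (h0 : ∀ m : ℕ, 1 ≤ m → m ≤ 7 → M 0 m = (m : ℂ) ^ m)
    (s11 : M 1 1 = 0) (s21 : M 2 1 = 0) (s22 : M 2 2 = M 1 2) (s32 : M 3 2 = M 1 2)
    (s33 : M 3 3 = 3 * M 2 3 - 2 * M 1 3) (s43 : M 4 3 = 3 * M 3 3 - 2 * M 2 3) :
    u = 0 ∧ v = 0 ∧ E = 0 ∧ F = 0 := by
  have a0_1 : M 0 1 = 1 := by rw [h0 1 (by norm_num) (by norm_num)]; norm_num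
  have a0_2 : M 0 2 = 4 := by rw [h0 2 (by norm_num) (by norm_num)]; norm_num
  have a0_3 : M 0 3 = 27 := by rw [h0 3 (by norm_num) (by norm_num)]; norm_num
  have a0_4 : M 0 4 = 256 := by rw [h0 4 (by norm_num) (by norm_num)]; norm_num
  have a0_5 : M 0 5 = 3125 := by rw [h0 5 (by norm_num) (by norm_num)]; norm_num
  have a0_6 : M 0 6 = 46656 := by rw [h0 6 (by norm_num) (by norm_num)]; norm_num
  have a0_7 : M 0 7 = 823543 := by rw [h0 7 (by norm_num) (by norm_num)]; norm_num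
  have r0_1 := hR0 1 (by norm_num)
  have r0_2 := hR0 2 (by norm_num)
  have r0_3 := hR0 3 (by norm_num)
  have r0_4 := hR0 4 (by norm_num)
  have r0_5 := hR0 5 (by norm_num)
  have r0_6 := hR0 6 (by norm_num)
  have r1_1 := hR1 1 (by norm_num)
  have r1_2 := hR1 2 (by norm_num)
  have r1_3 := hR1 3 (by norm_num)
  have r1_4 := hR1 4 (by norm_num)
  have r1_5 := hR1 5 (by norm_num)
  have r2_2 := hR2 2 (by norm_num)
  have r2_3 := hR2 3 (by norm_num)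
  have r2_4 := hR2 4 (by norm_num)
  have r3_3 := hR3 3 (by norm_num)
  norm_num at r0_1 r0_2 r0_3 r0_4 r0_5 r0_6 r1_1 r1_2 r1_3 r1_4 r1_5 r2_2 r2_3 r2_4 r3_3
  have m12 : M 1 2 = 3 + E + F := by rw [r1_1, s11, s21, a0_1]; ring
  have hI : (1 + v) * (3 + E + F) = 3 - 4 * u := by
    linear_combination (-(1 + v)) * m12 - r0_2 + a0_3 - (6 + u) * a0_2
  have q2 : (1 + v) * (4 + E * 2 + F) = 4 - F - 2*v - 8*u - v*F := by
    linear_combination 2 * hI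
  have q3 : (1 + v) * (5 + E * 3 + F) = 5 - 2*F - 4*v - 12*u - 2*v*F := by
    linear_combination 3 * hI
  have q4 : (1 + v) * (6 + E * 4 + F) = 6 - 3*F - 6*v - 16*u - 3*v*F := by
    linear_combination 4 * hI
  have q5 : (1 + v) * (7 + E * 5 + F) = 7 - 4*F - 8*v - 20*u - 4*v*F := by
    linear_combination 5 * hI
  have h1_2 : (1 + v) * M 1 2 =
      3 - 4*u := by
    linear_combination (-1) * r0_2 + a0_3 - (6 + u * 1) * a0_2
  have h1_3 : (1 + v) * M 1 3 =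
      40 - 54*u := by
    linear_combination (-1) * r0_3 + a0_4 - (8 + u * 2) * a0_3
  have h1_4 : (1 + v) * M 1 4 =
      565 - 768*u := by
    linear_combination (-1) * r0_4 + a0_5 - (10 + u * 3) * a0_4
  have h1_5 : (1 + v) * M 1 5 =
      9156 - 12500*u := by
    linear_combination (-1) * r0_5 + a0_6 - (12 + u * 4) * a0_5
  have h1_6 : (1 + v) * M 1 6 =
      170359 - 233280*u := by
    linear_combination (-1) * r0_6 + a0_7 - (14 + u * 5) * a0_6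
  have h2_2 : (1 + v)^2 * M 2 2 =
      3 + F + 8*v + 3*u + 4*v*F + 4*u*F + 4*u^2 := by
    linear_combination (-1) * (1 + v) * r1_2 + h1_3 - (6 + u * 1) * h1_2
      - 1 * (M 0 2 * q2 + (4 - F - 2*v - 8*u - v*F) * a0_2 + (1 + F) * h1_2)
  have h2_3 : (1 + v)^2 * M 2 3 =
      70 + 14*F + 108*v - 38*u + 54*v*F + 54*u*F + 108*u^2 := by
    linear_combination (-1) * (1 + v) * r1_3 + h1_4 - (8 + u * 2) * h1_3
      - 1 * (M 0 3 * q3 + (5 - 2*F - 4*v - 12*u - 2*v*F) * a0_3 + (1 + F) * h1_3)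
  have h2_4 : (1 + v)^2 * M 2 4 =
      1405 + 203*F + 1536*v - 1651*u + 768*v*F + 768*u*F + 2304*u^2 := by
    linear_combination (-1) * (1 + v) * r1_4 + h1_5 - (10 + u * 3) * h1_4
      - 1 * (M 0 4 * q4 + (6 - 3*F - 6*v - 16*u - 3*v*F) * a0_4 + (1 + F) * h1_4)
  have h2_5 : (1 + v)^2 * M 2 5 =
      29456 + 3344*F + 25000*v - 44904*u + 12500*v*F + 12500*u*F + 50000*u^2 := by
    linear_combination (-1) * (1 + v) * r1_5 + h1_6 - (12 + u * 4) * h1_5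
      - 1 * (M 0 5 * q5 + (7 - 4*F - 8*v - 20*u - 4*v*F) * a0_5 + (1 + F) * h1_5)
  have h3_2 : (1 + v)^3 * M 3 2 =
      3 + 7*F + 45*v + 51*u - 2*F^2 + 17*v*F + 8*v^2 + 11*u*F + 12*u*v + 9*u^2 - 8*v*F^2 + 4*v^2*F
      - 8*u*F^2 - 8*u*v*F - 12*u^2*F - 4*u^3 := by
    linear_combination (-1) * (1 + v)^2 * r2_2 + h2_3 - (6 + u * 1) * h2_2
      - 1 * ((1 + v) * M 0 2 * q2 + (1 + v) * (4 - F - 2*v - 8*u - v*F) * a0_2 + (1 + F) * (1 + v) * h1_2)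
      - 2 * ((1 + v) * M 1 2 * q2 + (4 - F - 2*v - 8*u - v*F) * h1_2 + (1 + F) * h2_2)
  have h3_3 : (1 + v)^3 * M 3 3 =
      130 + 97*F + 709*v + 467*u - 28*F^2 + 240*v*F + 108*v^2 + 114*u*F - 270*u*v + 4*u^2 -
      108*v*F^2 + 54*v^2*F - 108*u*F^2 - 270*u*v*F - 324*u^2*F - 216*u^3 := by
    linear_combination (-1) * (1 + v)^2 * r2_3 + h2_4 - (8 + u * 2) * h2_3
      - 1 * ((1 + v) * M 0 3 * q3 + (1 + v) * (5 - 2*F - 4*v - 12*u - 2*v*F) * a0_3 + (1 + F) * (1 + v) * h1_3)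
      - 2 * ((1 + v) * M 1 3 * q3 + (5 - 2*F - 4*v - 12*u - 2*v*F) * h1_3 + (1 + F) * h2_3)
  have h3_4 : (1 + v)^3 * M 3 4 =
      3715 + 1691*F + 12783*v + 2853*u - 406*F^2 + 4573*v*F + 1536*v^2 + 2137*u*F - 8960*u*v +
      2729*u^2 - 1536*v*F^2 + 768*v^2*F - 1536*u*F^2 - 6144*u*v*F - 6912*u^2*F - 6912*u^3 := by
    linear_combination (-1) * (1 + v)^2 * r2_4 + h2_5 - (10 + u * 3) * h2_4
      - 1 * ((1 + v) * M 0 4 * q4 + (1 + v) * (6 - 3*F - 6*v - 16*u - 3*v*F) * a0_4 + (1 + F) * (1 + v) * h1_4)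
      - 2 * ((1 + v) * M 1 4 * q4 + (6 - 3*F - 6*v - 16*u - 3*v*F) * h1_4 + (1 + F) * h2_4)
  have h4_3 : (1 + v)^4 * M 4 3 =
      250 + 446*F + 3308*v + 3288*u - 347*F^2 + 56*v*F + 1841*v^2 - 1564*u*F - 1504*u*v - 3505*u^2
      + 84*F^3 - 864*v*F^2 + 1022*v^2*F + 108*v^3 - 472*u*F^2 - 1068*u*v*F - 486*u*v^2 -
      1320*u^2*F - 432*u^2*v - 656*u^3 + 324*v*F^3 + 54*v^3*F + 324*u*F^3 + 1188*u*v*F^2 -
      378*u*v^2*F + 1188*u^2*F^2 + 864*u^2*v*F + 1296*u^3*F + 432*u^4 := by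
    linear_combination (-1) * (1 + v)^3 * r3_3 + h3_4 - (8 + u * 2) * h3_3
      - 1 * ((1 + v)^2 * M 0 3 * q3 + (1 + v)^2 * (5 - 2*F - 4*v - 12*u - 2*v*F) * a0_3 + (1 + F) * (1 + v)^2 * h1_3)
      - 3 * ((1 + v)^2 * M 1 3 * q3 + (1 + v) * (5 - 2*F - 4*v - 12*u - 2*v*F) * h1_3 + (1 + F) * (1 + v) * h2_3)
      - 3 * ((1 + v)^2 * M 2 3 * q3 + (5 - 2*F - 4*v - 12*u - 2*v*F) * h2_3 + (1 + F) * h3_3)
  have e22 : k22 u v F = 0 := by
    unfold k22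
    linear_combination -h2_2 + (1 + v) * h1_2 + (1 + v)^2 * s22
  have e23 : k23 u v F = 0 := by
    unfold k23
    linear_combination -h3_2 + (1 + v)^2 * h1_2 + (1 + v)^3 * s32
  have e33 : k33 u v F = 0 := by
    unfold k33
    linear_combination -h3_3 + 3 * (1 + v) * h2_3 - 2 * (1 + v)^2 * h1_3 + (1 + v)^3 * s33
  have e34 : k34 u v F = 0 := by
    unfold k34
    linear_combination -h4_3 + 3 * (1 + v) * h3_3 - 2 * (1 + v)^2 * h2_3 + (1 + v)^4 * s43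
  have hw : 1 + v ≠ 0 := by
    intro hw
    have t1 : 3 - 4 * u = 0 := by
      linear_combination -hI + (3 + E + F) * hw
    have t2 : 40 - 54 * u = 0 := by
      linear_combination -h1_3 + M 1 3 * hw
    have t3 : (2 : ℂ) = 0 := by linear_combination 54 * t1 - 4 * t2
    norm_num at t3
  have hu : u = 0 := by
    have h := cert_u u v F
    rw [e22, e23, e33, e34] at h
    simpa [hw] using h
  have hv : v = 0 := by
    have h := cert_v u v F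
    rw [e22, e23, e33, e34] at h
    have h2 : (1 + v)^2 * v = 0 := by simpa using h
    rcases mul_eq_zero.1 h2 with h3 | h3
    · exact absurd (pow_eq_zero_iff (two_ne_zero) |>.1 h3) hw
    · exact h3
  have hF : F = 0 := by
    unfold k22 at e22
    rw [hu, hv] at e22
    linear_combination e22
  have hE : E = 0 := by
    rw [hu, hv, hF] at hI
    linear_combination hI
  exact ⟨hu, hv, hE, hF⟩

end Pool.Agent.V11134.ShorChain
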