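import Pool.Agent.V11134.LichtData

set_option autoImplicit false

/-!
Parity argument (Sperner's lemma) for the periodic triangulation of `LichtData`.
-/

namespace Pool.Agent.V11134.Licht

abbrev Z4 := Fin 4 → ℤ
abbrev Vx := ℕ × Z4
abbrev X := Fin 92 × (Z4 × Fin 5)

/-- vertex `i` of the simplex `s` translated by `t` -/
def vt (s i : ℕ) (t : Z4) : Vx := (cl (code s i), fun c => of (code s i) c + t c)

def om (f : Vx → Fin 5) (s i : ℕ) (t : Z4) : ZMod 2 :=
  w4 (f (vt s (fa i 0) t)) (f (vt s (fa i 1) t)) (f (vt s (fa i 2) t)) (f (vt s (fa i 3) t))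

def fu (f : Vx → Fin 5) (s : ℕ) (t : Z4) : ZMod 2 :=
  full (f (vt s 0 t)) (f (vt s 1 t)) (f (vt s 2 t)) (f (vt s 3 t)) (f (vt s 4 t))

theorem fu_eq (f : Vx → Fin 5) (s : ℕ) (t : Z4) : fu f s t = ∑ i : Fin 5, om f s i t := by
  rw [Fin.sum_univ_five]
  exact full_eq _ _ _ _ _

/-- the translation to the neighbouring simplex -/
def pd (s i : ℕ) : Z4 := fun c =>
  of (code s (fa i 0)) c - of (code (par s i / 5) (fa (par s i % 5) 0)) c

theorem vt_par (s : Fin 92) (i : Fin 5) (k : Fin 4) (t : Z4) :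
    vt (par s i / 5) (fa (par s i % 5) k) (t + pd s i) = vt s (fa i k) t := by
  unfold vt
  refine Prod.ext ?_ ?_
  · exact (par_cl s i k).symm
  · funext c
    have h := par_of s i k c
    simp only [Pi.add_apply, pd]
    linarith

def pt (x : X) : X :=
  (⟨par x.1 x.2.2 / 5, by have := par_lt x.1 x.2.2; omega⟩, (x.2.1 + pd x.1 x.2.2),
    ⟨par x.1 x.2.2 % 5, Nat.mod_lt _ (by norm_num)⟩)

theorem om_pt (f : Vx → Fin 5) (x : X) :
    om f (pt x).1 (pt x).2.2 (pt x).2.1 = om f x.1 x.2.2 x.2.1 := by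
  obtain ⟨s, t, i⟩ := x
  have h0 := vt_par s i 0 t
  have h1 := vt_par s i 1 t
  have h2 := vt_par s i 2 t
  have h3 := vt_par s i 3 t
  simp only [om, pt]
  change w4 (f (vt (par s i / 5) (fa (par s i % 5) ((0 : Fin 4) : ℕ)) (t + pd s i)))
    (f (vt (par s i / 5) (fa (par s i % 5) ((1 : Fin 4) : ℕ)) (t + pd s i)))
    (f (vt (par s i / 5) (fa (par s i % 5) ((2 : Fin 4) : ℕ)) (t + pd s i)))
    (f (vt (par s i / 5) (fa (par s i % 5) ((3 : Fin 4) : ℕ)) (t + pd s i))) = _
  rw [h0, h1, h2, h3]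
  rfl

theorem pt_pt (x : X) : pt (pt x) = x := by
  obtain ⟨s, t, i⟩ := x
  have hp := par_par s i
  have hs : par (par s i / 5) (par s i % 5) / 5 = (s : ℕ) := by
    rw [hp]; have := i.2; omega
  have hi : par (par s i / 5) (par s i % 5) % 5 = (i : ℕ) := by
    rw [hp]; have := i.2; omega
  unfold pt
  refine Prod.ext ?_ (Prod.ext ?_ ?_)
  · exact Fin.ext hs
  · funext c
    simp only [Pi.add_apply, pd]
    rw [hs, hi]
    ring
  · exact Fin.ext hi

theorem pt_ne (x : X) : pt x ≠ x := by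
  obtain ⟨s, t, i⟩ := x
  intro h
  have := congrArg (fun y : X => (y.1 : ℕ)) h
  exact par_ne s i this

theorem fa_lt (i : ℕ) (k : ℕ) (hk : k < 4) : fa i k < 5 := by
  unfold fa; split <;> omega

/-- the coordinates of the vertices differ from the translation by at most one -/
theorem vt_near (s : Fin 92) (j : Fin 5) (t : Z4) (c : Fin 4) :
    t c - 1 ≤ (vt s j t).2 c ∧ (vt s j t).2 c ≤ t c + 1 := by
  have h := of_le s j c
  simp only [vt]
  constructor <;> linarith [h.1, h.2]

theorem om_ne (f g : Vx → Fin 5) (s : Fin 92) (i : Fin 5) (t : Z4)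
    (h : om f s i t + om g s i t ≠ 0) : ∃ j : Fin 5, f (vt s j t) ≠ g (vt s j t) := by
  by_contra hcon
  push Not at hcon
  apply h
  have hk : ∀ k : ℕ, k < 4 → f (vt s (fa i k) t) = g (vt s (fa i k) t) := by
    intro k hk
    exact hcon ⟨fa i k, fa_lt i k hk⟩
  unfold om
  rw [hk 0 (by norm_num), hk 1 (by norm_num), hk 2 (by norm_num), hk 3 (by norm_num)]
  exact CharTwo.add_self_eq_zero _

theorem parity (f g : Vx → Fin 5) (L : ℤ)
    (hfg : ∀ v, f v ≠ g v → ∀ c, -L ≤ v.2 c ∧ v.2 c ≤ L) :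
    ∑ x ∈ (Finset.univ : Finset (Fin 92)) ×ˢ
      (Finset.Icc (fun _ => -(L + 1)) (fun _ => L + 1) : Finset Z4),
      (fu f x.1 x.2 + fu g x.1 x.2) = 0 := by
  classical
  set I : Finset Z4 := Finset.Icc (fun _ => -(L + 1)) (fun _ => L + 1) with hI
  set B : Finset X := Finset.univ ×ˢ (I ×ˢ Finset.univ) with hB
  set h : X → ZMod 2 := fun x => om f x.1 x.2.2 x.2.1 + om g x.1 x.2.2 x.2.1 with hh
  have hmemI : ∀ x : X, h x ≠ 0 → x ∈ B := by
    intro x hx
    obtain ⟨j, hj⟩ := om_ne f g x.1 x.2.2 x.2.1 hx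
    have hb := hfg _ hj
    rw [hB, Finset.mem_product, Finset.mem_product]
    refine ⟨Finset.mem_univ _, ?_, Finset.mem_univ _⟩
    rw [hI, Finset.mem_Icc]
    constructor
    · intro c
      have h1 := vt_near x.1 j x.2.1 c
      have h2 := hb c
      show -(L + 1) ≤ x.2.1 c
      linarith [h1.1, h1.2, h2.1, h2.2]
    · intro c
      have h1 := vt_near x.1 j x.2.1 c
      have h2 := hb c
      show x.2.1 c ≤ L + 1
      linarith [h1.1, h1.2, h2.1, h2.2]
  have hpt : ∀ x : X, h (pt x) = h x := by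
    intro x
    simp only [hh]
    rw [om_pt, om_pt]
  have key : ∑ x ∈ B, h x = 0 := by
    rw [← Finset.sum_filter_ne_zero]
    apply Finset.sum_involution (fun x _ => pt x)
    · intro x _
      rw [hpt]
      exact CharTwo.add_self_eq_zero _
    · intro x _ _
      exact pt_ne x
    · intro x hx
      rw [Finset.mem_filter] at hx ⊢
      have h1 : h (pt x) ≠ 0 := by rw [hpt]; exact hx.2
      exact ⟨hmemI _ h1, h1⟩
    · intro x _
      exact pt_pt x
  rw [hB, Finset.sum_product] at key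
  rw [Finset.sum_product, ← key]
  apply Finset.sum_congr rfl
  intro s _
  rw [Finset.sum_product]
  apply Finset.sum_congr rfl
  intro t _
  simp only [hh]
  rw [fu_eq, fu_eq, ← Finset.sum_add_distrib]

/-! ### The fan labelling -/

def lamV (v : Vx) : Fin 5 := lam v.2

theorem lam_four (x : Z4) (h : lam x = 4) : ∀ c, 0 ≤ x c := by
  unfold lam at h
  intro c
  split_ifs at h with h0 h1 h2 h3
  · exact absurd h (by decide)
  · exact absurd h (by decide)
  · exact absurd h (by decide)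
  · exact absurd h (by decide)
  · fin_cases c
    · exact not_lt.mp h0
    · exact not_lt.mp h1
    · exact not_lt.mp h2
    · exact not_lt.mp h3

theorem lam_lt (x : Z4) (c : Fin 4) (h : lam x = c.castSucc) : x c < 0 := by
  unfold lam at h
  split_ifs at h with h0 h1 h2 h3
  · have : c = 0 := by
      apply Fin.ext; have := congrArg Fin.val h; simpa using this.symm
    rw [this]; exact h0
  · have : c = 1 := by
      apply Fin.ext; have := congrArg Fin.val h; simpa using this.symm
    rw [this]; exact h1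
  · have : c = 2 := by
      apply Fin.ext; have := congrArg Fin.val h; simpa using this.symm
    rw [this]; exact h2
  · have : c = 3 := by
      apply Fin.ext; have := congrArg Fin.val h; simpa using this.symm
    rw [this]; exact h3
  · exfalso
    have := congrArg Fin.val h
    have hc := c.2
    simp at this
    omega

theorem fu_surj (f : Vx → Fin 5) (s : Fin 92) (t : Z4) (h : fu f s t ≠ 0) :
    ∀ l : Fin 5, ∃ j : Fin 5, f (vt s j t) = l := by
  intro l
  rcases full_surj _ _ _ _ _ h l with h | h | h | h | h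
  · exact ⟨0, h.symm⟩
  · exact ⟨1, h.symm⟩
  · exact ⟨2, h.symm⟩
  · exact ⟨3, h.symm⟩
  · exact ⟨4, h.symm⟩

theorem fan_check : ∀ s : Fin 92, ∀ a b c d : Fin 2,
    fullZ s ((a : ℕ) - 1 : ℤ) ((b : ℕ) - 1 : ℤ) ((c : ℕ) - 1 : ℤ) ((d : ℕ) - 1 : ℤ) ≠ 0 →
    (s : ℕ) = 85 ∧ (a : ℕ) = 1 ∧ (b : ℕ) = 0 ∧ (c : ℕ) = 1 ∧ (d : ℕ) = 0 := by
  decide +kernel

theorem fan_one : fullZ 85 0 (-1) 0 (-1) = 1 := by decide +kernel

theorem fu_lamV (s : Fin 92) (t : Z4) : fu lamV s t = fullZ s (t 0) (t 1) (t 2) (t 3) := rfl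

theorem fan_range (s : Fin 92) (t : Z4) (h : fu lamV s t ≠ 0) (c : Fin 4) : -1 ≤ t c ∧ t c ≤ 0 := by
  have hs := fu_surj lamV s t h
  constructor
  · obtain ⟨j, hj⟩ := hs 4
    have h1 := lam_four _ hj c
    have h2 := vt_near s j t c
    linarith [h2.1, h2.2]
  · obtain ⟨j, hj⟩ := hs c.castSucc
    have h1 := lam_lt _ c hj
    have h2 := vt_near s j t c
    have h3 : t c < 1 := by linarith [h2.1, h2.2]
    omega

def t0 : Z4 := ![0, -1, 0, -1]

theorem fan_only (s : Fin 92) (t : Z4) (h : fu lamV s t ≠ 0) : s = 85 ∧ t = t0 := by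
  have hr := fan_range s t h
  rw [fu_lamV] at h
  have e : ∀ c : Fin 4, ∃ a : Fin 2, ((a : ℕ) : ℤ) - 1 = t c := by
    intro c
    have := hr c
    have hc : t c = -1 ∨ t c = 0 := by omega
    rcases hc with hc | hc
    · exact ⟨0, by rw [hc]; simp⟩
    · exact ⟨1, by rw [hc]; simp⟩
  obtain ⟨a, ha⟩ := e 0
  obtain ⟨b, hb⟩ := e 1
  obtain ⟨c, hc⟩ := e 2
  obtain ⟨d, hd⟩ := e 3
  rw [← ha, ← hb, ← hc, ← hd] at h
  obtain ⟨h1, h2, h3, h4, h5⟩ := fan_check s a b c d h
  refine ⟨Fin.ext h1, ?_⟩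
  funext i
  fin_cases i
  · show t 0 = 0
    rw [← ha, h2]; norm_num
  · show t 1 = -1
    rw [← hb, h3]; norm_num
  · show t 2 = 0
    rw [← hc, h4]; norm_num
  · show t 3 = -1
    rw [← hd, h5]; norm_num

theorem fan_t0 : fu lamV ((85 : Fin 92) : ℕ) t0 = 1 := fan_one

theorem fan_sum (M : ℤ) (hM : 1 ≤ M) :
    ∑ x ∈ (Finset.univ : Finset (Fin 92)) ×ˢ
      (Finset.Icc (fun _ => -M) (fun _ => M) : Finset Z4), fu lamV x.1 x.2 = 1 := by
  rw [Finset.sum_eq_single ((85 : Fin 92), t0)]
  · exact fan_t0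
  · intro x _ hx
    by_contra hcon
    obtain ⟨h1, h2⟩ := fan_only x.1 x.2 hcon
    exact hx (Prod.ext h1 h2)
  · intro hx
    exfalso
    apply hx
    rw [Finset.mem_product]
    refine ⟨Finset.mem_univ _, ?_⟩
    rw [Finset.mem_Icc]
    constructor
    · intro i
      fin_cases i
      · show -M ≤ (0 : ℤ); linarith
      · show -M ≤ (-1 : ℤ); linarith
      · show -M ≤ (0 : ℤ); linarith
      · show -M ≤ (-1 : ℤ); linarith
    · intro i
      fin_cases i
      · show (0 : ℤ) ≤ M; linarith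
      · show (-1 : ℤ) ≤ M; linarith
      · show (0 : ℤ) ≤ M; linarith
      · show (-1 : ℤ) ≤ M; linarith

/-! ### The finite graphs -/

noncomputable def box (L : ℤ) : Finset Vx := (Finset.range 4) ×ˢ (Finset.Icc (fun _ => -L) (fun _ => L))

theorem mem_box (L : ℤ) (v : Vx) (h1 : v.1 < 4) (h2 : ∀ c, -L ≤ v.2 c ∧ v.2 c ≤ L) : v ∈ box L := by
  unfold box
  rw [Finset.mem_product]
  refine ⟨Finset.mem_range.mpr h1, ?_⟩
  rw [Finset.mem_Icc]
  exact ⟨fun c => (h2 c).1, fun c => (h2 c).2⟩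

theorem box_bd (L : ℤ) (v : Vx) (h : v ∈ box L) : ∀ c, -L ≤ v.2 c ∧ v.2 c ≤ L := by
  unfold box at h
  rw [Finset.mem_product, Finset.mem_Icc] at h
  intro c
  exact ⟨h.2.1 c, h.2.2 c⟩

/-- The 1-skeleton of the periodic triangulation, restricted to a box. -/
def Gr (L : ℤ) : SimpleGraph (box L) where
  Adj u v := u ≠ v ∧ ∃ (s : Fin 92) (t : Z4) (i j : Fin 5), vt s i t = u.1 ∧ vt s j t = v.1
  symm := ⟨fun u v h => ⟨h.1.symm, by
    obtain ⟨s, t, i, j, a, b⟩ := h.2
    exact ⟨s, t, j, i, b, a⟩⟩⟩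
  loopless := ⟨fun u h => h.1 rfl⟩

theorem Gr_deg (L : ℤ) (u : box L) : ((Gr L).neighborSet u).ncard ≤ 29 := by
  classical
  set N : Finset Vx := ((nb u.1.1).toFinset).image
    (fun m => ((ncl m, fun c : Fin 4 => nof m c + u.1.2 c) : Vx)) with hN
  have hNc : N.card ≤ 29 := by
    rw [hN]
    refine le_trans Finset.card_image_le ?_
    refine le_trans (List.toFinset_card_le _) ?_
    rw [nb_len]
  have h1 : ((Gr L).neighborSet u).ncard ≤ (N : Set Vx).ncard := by
    refine Set.ncard_le_ncard_of_injOn (fun v : box L => v.1) ?_ ?_ (Finset.finite_toSet _)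
    · intro v hv
      obtain ⟨hne, s, t, i, j, hi, hj⟩ := hv
      have hij : i ≠ j := by
        intro h
        apply hne
        apply Subtype.ext
        rw [← hi, ← hj, h]
      obtain ⟨k1, k2, k3⟩ := nb_ok s i j hij
      show v.1 ∈ (N : Set Vx)
      rw [Finset.mem_coe, hN, Finset.mem_image]
      refine ⟨dco s i j, ?_, ?_⟩
      · rw [List.mem_toFinset]
        have : u.1.1 = cl (code s i) := by rw [← hi]; rfl
        rw [this]
        exact k1
      · rw [← hj]
        refine Prod.ext ?_ ?_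
        · exact k2
        · funext c
          show nof (dco s i j) c + u.1.2 c = of (code s j) c + t c
          rw [k3 c, ← hi]
          show of (code s j) c - of (code s i) c + (of (code s i) c + t c) = _
          ring
    · intro a _ b _ hab
      exact Subtype.ext hab
  rw [Set.ncard_coe_finset] at h1
  exact le_trans h1 hNc

/-- the monochromatic subgraph -/
def Hm (L : ℤ) (c : box L → ℕ) : SimpleGraph (box L) where
  Adj u v := (Gr L).Adj u v ∧ c u = c v
  symm := ⟨fun u v h => ⟨h.1.symm, h.2.symm⟩⟩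
  loopless := ⟨fun u h => h.1.1 rfl⟩

theorem walk_col (L : ℤ) (c : box L → ℕ) {u v : box L} (p : (Hm L c).Walk u v) :
    ∀ w ∈ p.support, c w = c u := by
  induction p with
  | nil => intro w hw; rw [SimpleGraph.Walk.support_nil, List.mem_singleton] at hw; rw [hw]
  | cons h p ih =>
    intro w hw
    rw [SimpleGraph.Walk.support_cons, List.mem_cons] at hw
    rcases hw with hw | hw
    · rw [hw]
    · rw [ih w hw]; exact h.2.symm

theorem walk_dist (L : ℤ) (c : box L → ℕ) {u v : box L} (p : (Hm L c).Walk u v) (e : Fin 4) :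
    u.1.2 e - v.1.2 e ≤ 2 * p.length ∧ v.1.2 e - u.1.2 e ≤ 2 * p.length := by
  induction p with
  | nil => simp
  | @cons a b d h p ih =>
    obtain ⟨-, s, t, i, j, hi, hj⟩ := h.1
    have h1 := vt_near s i t e
    have h2 := vt_near s j t e
    rw [hi] at h1
    rw [hj] at h2
    rw [SimpleGraph.Walk.length_cons]
    push_cast
    constructor <;> linarith [ih.1, ih.2, h1.1, h1.2, h2.1, h2.2]

theorem near (L : ℤ) (c : box L → ℕ) (k : ℕ) (hk : ∀ i : ℕ, {v | c v = i}.ncard ≤ k)
    {u v : box L} (h : (Hm L c).Reachable u v) (e : Fin 4) :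
    u.1.2 e - v.1.2 e ≤ 2 * k ∧ v.1.2 e - u.1.2 e ≤ 2 * k := by
  classical
  obtain ⟨p, hp⟩ := h.exists_isPath
  have hsub : (p.support.toFinset : Set (box L)) ⊆ {v | c v = c u} := by
    intro w hw
    rw [Finset.mem_coe, List.mem_toFinset] at hw
    exact walk_col L c p w hw
  have h1 : p.support.toFinset.card ≤ k := by
    rw [← Set.ncard_coe_finset]
    exact le_trans (Set.ncard_le_ncard hsub (Set.toFinite _)) (hk _)
  rw [List.toFinset_card_of_nodup hp.support_nodup, SimpleGraph.Walk.length_support] at h1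
  have h2 := walk_dist L c p e
  have h3 : (p.length : ℤ) ≤ k := by
    have : p.length ≤ k := by omega
    exact_mod_cast this
  constructor <;> linarith [h2.1, h2.2]

theorem main (k : ℕ) : ∃ (V : Type) (_ : Fintype V) (G : SimpleGraph V),
    (∀ v : V, (G.neighborSet v).ncard ≤ 29) ∧
    ∀ c : V → ℕ, (∀ i : ℕ, {v : V | c v = i}.ncard ≤ k) →
      ∃ s : Finset V, G.IsNClique 5 s ∧ ∀ x ∈ s, ∀ y ∈ s, c x = c y → x = y := by
  classical
  set L : ℤ := 2 * k + 2 with hL
  refine ⟨box L, inferInstance, Gr L, Gr_deg L, ?_⟩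
  intro c hc
  have hrep : ∀ u : box L, ∃ r : box L, (Hm L c).Reachable r u ∧
      r = Quot.out ((Hm L c).connectedComponentMk u) := by
    intro u
    refine ⟨Quot.out ((Hm L c).connectedComponentMk u), ?_, rfl⟩
    apply SimpleGraph.ConnectedComponent.exact
    exact Quot.out_eq _
  choose rep hrep1 hrep2 using hrep
  have hrepadj : ∀ u v, (Hm L c).Adj u v → rep u = rep v := by
    intro u v huv
    rw [hrep2 u, hrep2 v]
    congr 1
    exact SimpleGraph.ConnectedComponent.sound huv.reachable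
  set f : Vx → Fin 5 := fun v => if h : v ∈ box L then lam (rep ⟨v, h⟩).1.2 else lam v.2 with hf
  have hfg : ∀ v, f v ≠ lamV v → ∀ e, -L ≤ v.2 e ∧ v.2 e ≤ L := by
    intro v hv
    by_cases h : v ∈ box L
    · exact box_bd L v h
    · exfalso
      apply hv
      simp only [hf, lamV]
      rw [dif_neg h]
  have hpar := parity f lamV L hfg
  rw [Finset.sum_add_distrib, fan_sum (L + 1) (by rw [hL]; have : (0 : ℤ) ≤ k := by positivity
                                                  linarith)] at hpar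
  have hne : ∑ x ∈ (Finset.univ : Finset (Fin 92)) ×ˢ
      (Finset.Icc (fun _ => -(L + 1)) (fun _ => L + 1) : Finset Z4), fu f x.1 x.2 ≠ 0 := by
    intro h
    rw [h] at hpar
    exact absurd hpar (by decide)
  obtain ⟨⟨s, t⟩, -, hst⟩ := Finset.exists_ne_zero_of_sum_ne_zero hne
  have hsurj := fu_surj f s t hst
  have hu : ∀ j : Fin 5, ∃ x : Z4, f (vt s j t) = lam x ∧
      ∀ e, x e - t e ≤ 2 * k + 1 ∧ t e - x e ≤ 2 * k + 1 := by
    intro j
    by_cases h : vt s j t ∈ box L
    · refine ⟨(rep ⟨_, h⟩).1.2, ?_, ?_⟩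
      · simp only [hf]
        rw [dif_pos h]
      · intro e
        have h1 := near L c k hc (hrep1 ⟨_, h⟩) e
        have h2 := vt_near s j t e
        constructor <;> linarith [h1.1, h1.2, h2.1, h2.2]
    · refine ⟨(vt s j t).2, ?_, ?_⟩
      · simp only [hf]
        rw [dif_neg h]
      · intro e
        have h2 := vt_near s j t e
        have : (0 : ℤ) ≤ k := by positivity
        constructor <;> linarith [h2.1, h2.2]
  have ht : ∀ e, -(2 * (k : ℤ) + 1) ≤ t e ∧ t e ≤ 2 * k + 1 := by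
    intro e
    constructor
    · obtain ⟨j, hj⟩ := hsurj 4
      obtain ⟨x, hx1, hx2⟩ := hu j
      rw [hx1] at hj
      have h1 := lam_four x hj e
      have h2 := hx2 e
      linarith [h2.1, h2.2]
    · obtain ⟨j, hj⟩ := hsurj e.castSucc
      obtain ⟨x, hx1, hx2⟩ := hu j
      rw [hx1] at hj
      have h1 := lam_lt x e hj
      have h2 := hx2 e
      linarith [h2.1, h2.2]
  have hbox : ∀ j : Fin 5, vt s j t ∈ box L := by
    intro j
    apply mem_box
    · exact cl_lt s j
    · intro e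
      have h1 := ht e
      have h2 := vt_near s j t e
      rw [hL]
      constructor <;> linarith [h1.1, h1.2, h2.1, h2.2]
  set w : Fin 5 → box L := fun j => ⟨vt s j t, hbox j⟩ with hw
  set l : Fin 5 → Fin 5 := fun j => lam (rep (w j)).1.2 with hl
  have hfl : ∀ j : Fin 5, f (vt s j t) = l j := by
    intro j
    simp only [hf, hl, hw]
    rw [dif_pos (hbox j)]
  have lsurj : Function.Surjective l := by
    intro y
    obtain ⟨j, hj⟩ := hsurj y
    exact ⟨j, by rw [← hfl]; exact hj⟩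
  have linj : Function.Injective l := Finite.injective_iff_surjective.mpr lsurj
  have winj : Function.Injective w := by
    intro a b hab
    apply linj
    simp only [hl]
    rw [hab]
  refine ⟨Finset.univ.image w, ?_, ?_⟩
  · rw [SimpleGraph.isNClique_iff]
    constructor
    · rw [SimpleGraph.isClique_iff]
      intro x hx y hy hxy
      rw [Finset.mem_coe, Finset.mem_image] at hx hy
      obtain ⟨i, -, rfl⟩ := hx
      obtain ⟨j, -, rfl⟩ := hy
      exact ⟨hxy, s, t, i, j, rfl, rfl⟩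
    · rw [Finset.card_image_of_injective _ winj]
      simp
  · intro x hx y hy hxy
    rw [Finset.mem_image] at hx hy
    obtain ⟨i, -, rfl⟩ := hx
    obtain ⟨j, -, rfl⟩ := hy
    by_contra hne2
    have hadj : (Hm L c).Adj (w i) (w j) := ⟨⟨hne2, s, t, i, j, rfl, rfl⟩, hxy⟩
    have h1 := hrepadj _ _ hadj
    have h2 : l i = l j := by
      simp only [hl]
      rw [h1]
    exact hne2 (by rw [linj h2])

end Pool.Agent.V11134.Licht
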